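import Pool.Agent.Run7.h35.EX.Stm

/-!
Piece D0 of project EX (helper35), written by helper989: the lower bound for `d0`.
-/

set_option autoImplicit false

namespace Pool.Agent.Run7.h989.EX

open Run7.h35.EX

noncomputable section

theorem av_mono {T : Type} [Fintype T] {f g : T → ℝ} (h : ∀ t, f t ≤ g t) : av f ≤ av g := by
  unfold av
  exact div_le_div_of_nonneg_right (Finset.sum_le_sum fun t _ => h t) (Nat.cast_nonneg _)

theorem av_add {T : Type} [Fintype T] (f g : T → ℝ) : av (fun t => f t + g t) = av f + av g := by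
  unfold av
  rw [Finset.sum_add_distrib, add_div]

theorem av_cmul {T : Type} [Fintype T] (c : ℝ) (f : T → ℝ) : av (fun t => c * f t) = c * av f := by
  unfold av
  rw [← Finset.mul_sum, mul_div_assoc]

theorem av_const {T : Type} [Fintype T] [Nonempty T] (c : ℝ) : av (fun _ : T => c) = c := by
  unfold av
  have : (Fintype.card T : ℝ) ≠ 0 := by exact_mod_cast Fintype.card_ne_zero
  rw [Finset.sum_const, Finset.card_univ, nsmul_eq_mul, mul_div_assoc, mul_comm, div_mul_cancel₀ _ this]

theorem av_comm {T T' : Type} [Fintype T] [Fintype T'] (f : T → T' → ℝ) :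
    (av fun t => av fun t' => f t t') = av fun t' => av fun t => f t t' := by
  unfold av
  rw [← Finset.sum_div, ← Finset.sum_div, Finset.sum_comm, div_div, div_div, mul_comm]

theorem av_trans {V : Type} [Fintype V] [AddCommGroup V] (f : V → ℝ) (v : V) :
    av (fun x => f (x + v)) = av f := by
  unfold av
  congr 1
  exact Equiv.sum_comp (Equiv.addRight v) f

/-- a median -/
theorem median {V : Type} [Fintype V] [Nonempty V] (f : V → ℝ) : ∃ c : ℝ,
    2 * (Finset.univ.filter fun x => f x < c).card ≤ Fintype.card V ∧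
    2 * (Finset.univ.filter fun x => c < f x).card ≤ Fintype.card V := by
  classical
  let T : Finset V := Finset.univ.filter fun x => Fintype.card V ≤ 2 * (Finset.univ.filter fun y => f y ≤ f x).card
  have hT : T.Nonempty := by
    obtain ⟨x, hx⟩ := Finite.exists_max f
    refine ⟨x, Finset.mem_filter.2 ⟨Finset.mem_univ _, ?_⟩⟩
    have : (Finset.univ.filter fun y => f y ≤ f x) = Finset.univ := by
      rw [Finset.filter_eq_self]
      exact fun y _ => hx y
    rw [this, Finset.card_univ]
    omega
  obtain ⟨x0, hx0, hmin⟩ := Finset.exists_min_image T f hT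
  refine ⟨f x0, ?_, ?_⟩
  · by_cases he : (Finset.univ.filter fun x => f x < f x0).Nonempty
    · obtain ⟨y, hy, hmax⟩ := Finset.exists_max_image _ f he
      have hy' : f y < f x0 := (Finset.mem_filter.1 hy).2
      have hyT : y ∉ T := fun h => absurd (hmin y h) (not_le.mpr hy')
      have h1 : ¬ Fintype.card V ≤ 2 * (Finset.univ.filter fun z => f z ≤ f y).card := fun h =>
        hyT (Finset.mem_filter.2 ⟨Finset.mem_univ _, h⟩)
      have h2 : (Finset.univ.filter fun x => f x < f x0) ⊆ (Finset.univ.filter fun z => f z ≤ f y) := by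
        intro z hz
        exact Finset.mem_filter.2 ⟨Finset.mem_univ _, hmax z hz⟩
      have h3 := Finset.card_le_card h2
      omega
    · rw [Finset.not_nonempty_iff_eq_empty] at he
      rw [he]
      simp
  · have h1 := (Finset.mem_filter.1 hx0).2
    have h2 : (Finset.univ.filter fun x => f x0 < f x).card + (Finset.univ.filter fun y => f y ≤ f x0).card =
        Fintype.card V := by
      rw [← Finset.card_univ, ← Finset.card_filter_add_card_filter_not (s := Finset.univ) (fun x => f x0 < f x)]
      congr 2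
      ext y
      simp
    omega

theorem sqrt_sub_sq {a b : ℝ} (ha : 0 ≤ a) (hb : 0 ≤ b) : (Real.sqrt a - Real.sqrt b) ^ 2 ≤ |a - b| := by
  have h1 : a - b = (Real.sqrt a - Real.sqrt b) * (Real.sqrt a + Real.sqrt b) := by
    have h2 := Real.mul_self_sqrt ha
    have h3 := Real.mul_self_sqrt hb
    linarith
  rw [h1, abs_mul, abs_of_nonneg (add_nonneg (Real.sqrt_nonneg a) (Real.sqrt_nonneg b)), ← sq_abs, pow_two]
  refine mul_le_mul_of_nonneg_left ?_ (abs_nonneg _)
  rw [abs_le]
  constructor <;> linarith [Real.sqrt_nonneg a, Real.sqrt_nonneg b]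

variable {V ι : Type} [Fintype V] [AddCommGroup V] [Fintype ι] [Nonempty ι]

theorem key (hC : S_CORR) (s : ι → V) (η : ℝ) (h0 : 0 ≤ η) (h1 : η ≤ 1 / 4) (hG : Gap s η) (u : V → ℝ)
    (hu : ∀ x, 0 ≤ u x) (hs : 2 * (Finset.univ.filter fun x => u x ≠ 0).card ≤ Fintype.card V) :
    1 / 2 * av u ≤ nrm1 (d0 s u) := by
  classical
  have hV : (0 : ℝ) < Fintype.card V := by exact_mod_cast Fintype.card_pos
  let g : V → ℝ := fun x => Real.sqrt (u x)
  have hg2 : ∀ x, g x ^ 2 = u x := fun x => Real.sq_sqrt (hu x)
  have hU : 0 ≤ ∑ x, u x := Finset.sum_nonneg fun x _ => hu x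
  have hu0 : 0 ≤ av u := div_nonneg hU hV.le
  -- Cauchy-Schwarz on the support
  have hcs : (av g) ^ 2 ≤ 1 / 2 * av u := by
    have e1 : ∑ x, g x = ∑ x ∈ Finset.univ.filter (fun x => u x ≠ 0), g x := by
      rw [Finset.sum_filter]
      refine Finset.sum_congr rfl fun x _ => ?_
      by_cases h : u x ≠ 0
      · rw [if_pos h]
      · rw [if_neg h]
        simp only [g, not_not.1 h, Real.sqrt_zero]
    have e2 : ∑ x ∈ Finset.univ.filter (fun x => u x ≠ 0), g x ^ 2 ≤ ∑ x, u x := by
      rw [← Finset.sum_congr rfl fun x _ => hg2 x]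
      exact Finset.sum_le_sum_of_subset_of_nonneg (Finset.filter_subset _ _) fun x _ _ => sq_nonneg _
    have e3 := sq_sum_le_card_mul_sum_sq (s := Finset.univ.filter (fun x => u x ≠ 0)) (f := g)
    have e4 : (2 : ℝ) * ((Finset.univ.filter fun x => u x ≠ 0).card : ℝ) ≤ Fintype.card V := by exact_mod_cast hs
    have e5 : (∑ x, g x) ^ 2 ≤ (Fintype.card V : ℝ) / 2 * ∑ x, u x := by
      rw [e1]
      refine e3.trans ?_
      calc ((Finset.univ.filter (fun x => u x ≠ 0)).card : ℝ) * ∑ x ∈ Finset.univ.filter (fun x => u x ≠ 0), g x ^ 2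
          ≤ ((Finset.univ.filter (fun x => u x ≠ 0)).card : ℝ) * ∑ x, u x :=
            mul_le_mul_of_nonneg_left e2 (Nat.cast_nonneg _)
        _ ≤ (Fintype.card V : ℝ) / 2 * ∑ x, u x := mul_le_mul_of_nonneg_right (by linarith) hU
    unfold av
    rw [div_pow, div_le_iff₀ (by positivity)]
    calc (∑ x, g x) ^ 2 ≤ (Fintype.card V : ℝ) / 2 * ∑ x, u x := e5
      _ = 1 / 2 * ((∑ t, u t) / (Fintype.card V : ℝ)) * (Fintype.card V : ℝ) ^ 2 := by
        field_simp
  have hcorr := hC V ι s η h0 hG g g
  have hsq : av (fun x => g x ^ 2) = av u := by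
    congr 1
    funext x
    exact hg2 x
  rw [hsq, Real.mul_self_sqrt hu0] at hcorr
  have hT : (av fun x => av fun i => u (x + s i)) = av u := by
    rw [av_comm]
    have : (fun i => av fun x => u (x + s i)) = fun _ : ι => av u := by
      funext i
      exact av_trans u (s i)
    rw [this, av_const]
  have hlow : (av fun x => av fun i => (u (x + s i) + u x) + (-2) * (g x * g (x + s i))) ≤ nrm1 (d0 s u) := by
    unfold nrm1 d0
    refine av_mono fun x => av_mono fun i => ?_
    have h3 := sqrt_sub_sq (hu (x + s i)) (hu x)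
    have h4 : (Real.sqrt (u (x + s i)) - Real.sqrt (u x)) ^ 2 = (u (x + s i) + u x) + (-2) * (g x * g (x + s i)) := by
      have h5 := hg2 (x + s i)
      have h6 := hg2 x
      simp only [g] at h5 h6 ⊢
      ring_nf
      rw [h5, h6]
    rw [← h4]
    exact h3
  have hexp : (av fun x => av fun i => (u (x + s i) + u x) + (-2) * (g x * g (x + s i))) =
      2 * av u - 2 * av (fun x => g x * av fun j => g (x + s j)) := by
    have e1 : (fun x => av fun i => (u (x + s i) + u x) + (-2) * (g x * g (x + s i))) =
        fun x => (av (fun i => u (x + s i)) + u x) + (-2) * (g x * av fun j => g (x + s j)) := by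
      funext x
      rw [av_add, av_add, av_const, av_cmul, av_cmul]
    rw [e1, av_add, av_add, hT, av_cmul]
    ring
  rw [hexp] at hlow
  have h7 : η * av u ≤ 1 / 4 * av u := mul_le_mul_of_nonneg_right h1 hu0
  have h8 : av g * av g = (av g) ^ 2 := by ring
  rw [h8] at hcorr
  linarith

theorem t_D0 (hC : S_CORR) : S_D0 := by
  intro V ι _ _ _ _ s η h0 h1 hG f
  classical
  obtain ⟨c, hc1, hc2⟩ := median f
  refine ⟨c, ?_⟩
  let u : V → ℝ := fun x => max (f x - c) 0
  let w : V → ℝ := fun x => max (c - f x) 0
  have hu : ∀ x, 0 ≤ u x := fun x => le_max_right _ _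
  have hw : ∀ x, 0 ≤ w x := fun x => le_max_right _ _
  have hus : 2 * (Finset.univ.filter fun x => u x ≠ 0).card ≤ Fintype.card V := by
    refine le_trans (Nat.mul_le_mul_left 2 (Finset.card_le_card ?_)) hc2
    intro x hx
    refine Finset.mem_filter.2 ⟨Finset.mem_univ _, ?_⟩
    by_contra hcon
    exact (Finset.mem_filter.1 hx).2 (max_eq_right (by linarith))
  have hws : 2 * (Finset.univ.filter fun x => w x ≠ 0).card ≤ Fintype.card V := by
    refine le_trans (Nat.mul_le_mul_left 2 (Finset.card_le_card ?_)) hc1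
    intro x hx
    refine Finset.mem_filter.2 ⟨Finset.mem_univ _, ?_⟩
    by_contra hcon
    exact (Finset.mem_filter.1 hx).2 (max_eq_right (by linarith))
  have k1 := key hC s η h0 h1 hG u hu hus
  have k2 := key hC s η h0 h1 hG w hw hws
  have e1 : av (fun x => |f x - c|) = av u + av w := by
    rw [← av_add]
    congr 1
    funext x
    show |f x - c| = max (f x - c) 0 + max (c - f x) 0
    rcases le_total (f x) c with h | h
    · rw [abs_of_nonpos (by linarith), max_eq_right (by linarith), max_eq_left (by linarith)]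
      ring
    · rw [abs_of_nonneg (by linarith), max_eq_left (by linarith), max_eq_right (by linarith)]
      ring
  have e2 : nrm1 (d0 s f) = nrm1 (d0 s u) + nrm1 (d0 s w) := by
    unfold nrm1 d0
    rw [← av_add]
    congr 1
    funext x
    rw [← av_add]
    congr 1
    funext i
    show |f (x + s i) - f x| = |max (f (x + s i) - c) 0 - max (f x - c) 0| + |max (c - f (x + s i)) 0 - max (c - f x) 0|
    generalize f (x + s i) = p
    generalize f x = q
    rcases le_total p c with h | h <;> rcases le_total q c with h' | h'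
    · rw [max_eq_right (by linarith : p - c ≤ 0), max_eq_right (by linarith : q - c ≤ 0),
        max_eq_left (by linarith : 0 ≤ c - p), max_eq_left (by linarith : 0 ≤ c - q), sub_zero, abs_zero, zero_add,
        abs_sub_comm]
      congr 1
      ring
    · rw [max_eq_right (by linarith : p - c ≤ 0), max_eq_left (by linarith : 0 ≤ q - c),
        max_eq_left (by linarith : 0 ≤ c - p), max_eq_right (by linarith : c - q ≤ 0), zero_sub, sub_zero, abs_neg,
        abs_of_nonneg (by linarith : 0 ≤ q - c), abs_of_nonneg (by linarith : 0 ≤ c - p),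
        abs_of_nonpos (by linarith : p - q ≤ 0)]
      ring
    · rw [max_eq_left (by linarith : 0 ≤ p - c), max_eq_right (by linarith : q - c ≤ 0),
        max_eq_right (by linarith : c - p ≤ 0), max_eq_left (by linarith : 0 ≤ c - q), zero_sub, sub_zero, abs_neg,
        abs_of_nonneg (by linarith : 0 ≤ p - c), abs_of_nonneg (by linarith : 0 ≤ c - q),
        abs_of_nonneg (by linarith : 0 ≤ p - q)]
      ring
    · rw [max_eq_left (by linarith : 0 ≤ p - c), max_eq_left (by linarith : 0 ≤ q - c),
        max_eq_right (by linarith : c - p ≤ 0), max_eq_right (by linarith : c - q ≤ 0), sub_zero, abs_zero, add_zero]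
      congr 1
      ring
  rw [e1, e2]
  linarith

end

end Pool.Agent.Run7.h989.EX
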